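import Pool.Agent.Helper32.AG.Goals

set_option autoImplicit false

namespace Pool.Agent.Helper45.AG

open Pool.Agent.Helper32.AG
open scoped commutatorElement

universe u

variable {G : Type u} [Group G]

theorem mk_mem_Kst (V : Subgroup G) [V.Normal] (hV : ∀ a ∈ V, ∀ b ∈ V, a * b = b * a) {v : G}
    (hv : v ∈ V) (x : G) : (QuotientGroup.mk x : G ⧸ V) ∈ Kst V v ↔ x * v = v * x := by
  unfold Kst
  rw [Subgroup.mem_map]
  constructor
  · rintro ⟨g, hg, hgx⟩
    rw [Subgroup.mem_centralizer_singleton_iff] at hg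
    have h1 : g⁻¹ * x ∈ V := QuotientGroup.eq.1 hgx
    have h2 : x = g * (g⁻¹ * x) := by group
    rw [h2, mul_assoc, hV _ h1 v hv, ← mul_assoc, hg]
    group
  · intro h
    refine ⟨x, ?_, rfl⟩
    rw [Subgroup.mem_centralizer_singleton_iff]
    exact h

theorem mem_Cc (V : Subgroup G) (x y v : G) :
    v ∈ Cc V x y ↔ v ∈ V ∧ x * v = v * x ∧ y * v = v * y := by
  unfold Cc
  rw [Subgroup.mem_inf, Subgroup.mem_centralizer_iff]
  simp

theorem card_Cc (V : Subgroup G) [V.Normal] (hV : ∀ a ∈ V, ∀ b ∈ V, a * b = b * a) (x y : G) :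
    Nat.card (Cc V x y) = Nat.card {v : V // (QuotientGroup.mk x : G ⧸ V) ∈ Kst V (v : G) ∧
      (QuotientGroup.mk y : G ⧸ V) ∈ Kst V (v : G)} := by
  refine Nat.card_congr
    { toFun := fun v => ⟨⟨v.1, ((mem_Cc V x y v.1).1 v.2).1⟩, ?_, ?_⟩
      invFun := fun v => ⟨v.1.1, ?_⟩
      left_inv := fun v => rfl
      right_inv := fun v => rfl }
  · exact (mk_mem_Kst V hV ((mem_Cc V x y v.1).1 v.2).1 x).2 ((mem_Cc V x y v.1).1 v.2).2.1
  · exact (mk_mem_Kst V hV ((mem_Cc V x y v.1).1 v.2).1 y).2 ((mem_Cc V x y v.1).1 v.2).2.2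
  · exact (mem_Cc V x y v.1.1).2 ⟨v.1.2, (mk_mem_Kst V hV v.1.2 x).1 v.2.1,
      (mk_mem_Kst V hV v.1.2 y).1 v.2.2⟩

theorem frm : FrmStmt.{u} := by
  intro G _ _ V _ hV h
  classical
  have hfG : Finite G := inferInstance
  have : Fintype V := Fintype.ofFinite V
  have : Fintype (G ⧸ V) := Fintype.ofFinite _
  -- the fibres
  let f : {p : G × G // Commute p.1 p.2} → (G ⧸ V) × (G ⧸ V) := fun p => (p.1.1, p.1.2)
  have hfib : ∀ r : (G ⧸ V) × (G ⧸ V), Nat.card {p // f p = r} =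
      Nat.card V * Nat.card {v : V // Commute r.1 r.2 ∧ r.1 ∈ Kst V (v : G) ∧
        r.2 ∈ Kst V (v : G)} := by
    rintro ⟨a, b⟩
    by_cases hab : Commute a b
    · obtain ⟨x, rfl⟩ := QuotientGroup.mk_surjective a
      obtain ⟨y, rfl⟩ := QuotientGroup.mk_surjective b
      have hxy : ⁅x, y⁆ ∈ V := by
        rw [← QuotientGroup.eq_one_iff]
        have : (QuotientGroup.mk ⁅x, y⁆ : G ⧸ V) = ⁅(x : G ⧸ V), (y : G ⧸ V)⁆ := rfl
        rw [this, commutatorElement_eq_one_iff_commute]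
        exact hab
      have h1 : Nat.card {v : V // Commute (x : G ⧸ V) (y : G ⧸ V) ∧
          (x : G ⧸ V) ∈ Kst V (v : G) ∧ (y : G ⧸ V) ∈ Kst V (v : G)} = Nat.card (Cc V x y) := by
        rw [card_Cc V hV]
        exact Nat.card_congr (Equiv.subtypeEquivRight fun v => by simp [hab])
      show _ = Nat.card V * Nat.card {v : V // Commute (x : G ⧸ V) (y : G ⧸ V) ∧
          (x : G ⧸ V) ∈ Kst V (v : G) ∧ (y : G ⧸ V) ∈ Kst V (v : G)}
      rw [h1, ← h x y hxy]
      refine Nat.card_congr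
        { toFun := fun p => ⟨(⟨x⁻¹ * p.1.1.1, ?_⟩, ⟨y⁻¹ * p.1.1.2, ?_⟩), ?_⟩
          invFun := fun q => ⟨⟨(x * (q.1.1 : G), y * (q.1.2 : G)), q.2⟩, ?_⟩
          left_inv := fun p => ?_
          right_inv := fun q => ?_ }
      · have := congrArg Prod.fst p.2
        exact QuotientGroup.eq.1 this.symm
      · have := congrArg Prod.snd p.2
        exact QuotientGroup.eq.1 this.symm
      · have := p.1.2
        simpa using this
      · refine Prod.ext ?_ ?_
        · exact (QuotientGroup.eq.2 (by simp)).symm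
        · exact (QuotientGroup.eq.2 (by simp)).symm
      · apply Subtype.ext; apply Subtype.ext; simp
      · apply Subtype.ext; simp
    · have h1 : IsEmpty {p // f p = (a, b)} := by
        refine ⟨fun p => hab ?_⟩
        have h2 : Commute (f p.1).1 (f p.1).2 := p.1.2.map (QuotientGroup.mk' V)
        rwa [p.2] at h2
      have h2 : IsEmpty {v : V // Commute (a, b).1 (a, b).2 ∧ (a, b).1 ∈ Kst V (v : G) ∧
          (a, b).2 ∈ Kst V (v : G)} := ⟨fun v => hab v.2.1⟩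
      rw [@Nat.card_of_isEmpty _ h1, @Nat.card_of_isEmpty _ h2, mul_zero]
  have hA : Nat.card {p : G × G // Commute p.1 p.2} =
      Nat.card V * ∑ r : (G ⧸ V) × (G ⧸ V), Nat.card {v : V // Commute r.1 r.2 ∧
        r.1 ∈ Kst V (v : G) ∧ r.2 ∈ Kst V (v : G)} := by
    rw [← Nat.card_congr (Equiv.sigmaFiberEquiv f), Nat.card_sigma, Finset.mul_sum]
    exact Finset.sum_congr rfl fun r _ => hfib r
  have hB : ∑ r : (G ⧸ V) × (G ⧸ V), Nat.card {v : V // Commute r.1 r.2 ∧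
        r.1 ∈ Kst V (v : G) ∧ r.2 ∈ Kst V (v : G)} =
      ∑ v : V, Nat.card {r : (G ⧸ V) × (G ⧸ V) // Commute r.1 r.2 ∧
        r.1 ∈ Kst V (v : G) ∧ r.2 ∈ Kst V (v : G)} := by
    rw [← Nat.card_sigma, ← Nat.card_sigma]
    exact Nat.card_congr
      { toFun := fun s => ⟨s.2.1, ⟨s.1, s.2.2⟩⟩
        invFun := fun s => ⟨s.2.1, ⟨s.1, s.2.2⟩⟩
        left_inv := fun s => rfl
        right_inv := fun s => rfl }
  have hC : ∀ v : V, Nat.card {r : (G ⧸ V) × (G ⧸ V) // Commute r.1 r.2 ∧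
        r.1 ∈ Kst V (v : G) ∧ r.2 ∈ Kst V (v : G)} =
      Nat.card (Kst V (v : G)) * k (Kst V (v : G)) := by
    intro v
    unfold k
    rw [mul_comm, ← card_comm_eq_card_conjClasses_mul_card]
    exact Nat.card_congr
      { toFun := fun r => ⟨(⟨r.1.1, r.2.2.1⟩, ⟨r.1.2, r.2.2.2⟩), Subtype.ext r.2.1⟩
        invFun := fun s => ⟨(s.1.1.1, s.1.2.1), congrArg Subtype.val s.2, s.1.1.2, s.1.2.2⟩
        left_inv := fun r => rfl
        right_inv := fun s => rfl }
  rw [card_comm_eq_card_conjClasses_mul_card, hB] at hA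
  rw [finsum_eq_sum_of_fintype]
  simp only [hC] at hA
  have hV0 : 0 < Nat.card V := Nat.card_pos
  have hG : Nat.card G = Nat.card (G ⧸ V) * Nat.card V :=
    Subgroup.card_eq_card_quotient_mul_card_subgroup V
  apply Nat.eq_of_mul_eq_mul_left hV0
  rw [← hA]
  unfold k
  rw [hG]
  ring

end Pool.Agent.Helper45.AG
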