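import Mathlib

/-!
# Groups with commutative p-subgroups: commutators
-/

set_option autoImplicit false

namespace Pool.Agent.Helper45.AG

universe u v

theorem isPGroup_zpowers {H : Type u} [Group H] {p k : ℕ} {g : H} (hg : g ^ (p ^ k) = 1) :
    IsPGroup p (Subgroup.zpowers g) := by
  rintro ⟨a, ha⟩
  obtain ⟨z, rfl⟩ := ha
  refine ⟨k, Subtype.ext ?_⟩
  simp only [SubmonoidClass.coe_pow, OneMemClass.coe_one]
  rw [← zpow_natCast, ← zpow_mul, mul_comm, zpow_mul, zpow_natCast, hg, one_zpow]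

theorem pow_swap {H : Type u} [Group H] {x y c : H} (h : x * y = y * x * c) (hx : Commute c x)
    (hy : Commute c y) (i j : ℕ) : x ^ i * y ^ j = y ^ j * x ^ i * c ^ (i * j) := by
  have h1 : ∀ j : ℕ, x * y ^ j = y ^ j * x * c ^ j := by
    intro j
    induction j with
    | zero => simp
    | succ n ih =>
      rw [pow_succ, ← mul_assoc, ih, mul_assoc (y ^ n * x), (hy.pow_left n).eq, ← mul_assoc,
        mul_assoc (y ^ n) x y, h]
      rw [pow_succ' c]
      simp only [mul_assoc]
  induction i with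
  | zero => simp
  | succ n ih =>
    rw [pow_succ x, mul_assoc, h1, ← mul_assoc, ← mul_assoc, ih, mul_assoc (y ^ j * x ^ n),
      (hx.pow_left (n * j)).eq, Nat.succ_mul, pow_add]
    simp only [mul_assoc]

/-- In a finite group with commutative `p`-subgroups there are no commutators of order `p` which
commute with both factors. -/
theorem eq_one_of_central' {H : Type u} [Group H] [Finite H] {p : ℕ} (hp : p.Prime)
    (h : ∀ P : Subgroup H, IsPGroup p P → ∀ x ∈ P, ∀ y ∈ P, x * y = y * x)
    {x y c : H} (hxy : x * y = y * x * c) (hx : Commute c x) (hy : Commute c y)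
    (hc : c ^ p = 1) : c = 1 := by
  have : Fact p.Prime := ⟨hp⟩
  have key : ∀ g : H, ∃ m k : ℕ, ¬ p ∣ m ∧ (g ^ m) ^ (p ^ k) = 1 := by
    intro g
    have hg : orderOf g ≠ 0 := (orderOf_pos g).ne'
    obtain ⟨k, m, hm, he⟩ := Nat.exists_eq_pow_mul_and_not_dvd hg p hp.ne_one
    refine ⟨m, k, hm, ?_⟩
    rw [← pow_mul, mul_comm, ← he, pow_orderOf_eq_one]
  obtain ⟨m, k, hm, hk⟩ := key x
  obtain ⟨n, l, hn, hl⟩ := key y
  have h1 := pow_swap hxy hx hy m n
  have hcx : Commute c (x ^ m) := hx.pow_right m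
  have hcy : Commute c (y ^ n) := hy.pow_right n
  have hZ : IsPGroup p (Subgroup.zpowers c) := isPGroup_zpowers (k := 1) (by simpa using hc)
  have hX : IsPGroup p (Subgroup.zpowers (x ^ m)) := isPGroup_zpowers hk
  have hY : IsPGroup p (Subgroup.zpowers (y ^ n)) := isPGroup_zpowers hl
  have hK : IsPGroup p (Subgroup.zpowers (x ^ m) ⊔ Subgroup.zpowers c : Subgroup H) := by
    refine hX.to_sup_of_normal_right' hZ ?_
    rw [Subgroup.zpowers_le, Subgroup.mem_normalizer_iff]
    intro g
    constructor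
    · rintro ⟨z, rfl⟩
      refine ⟨z, ?_⟩
      simp only
      rw [← (hcx.zpow_left z).eq, mul_assoc, mul_inv_cancel, mul_one]
    · rintro ⟨z, hz⟩
      refine ⟨z, ?_⟩
      simp only at hz ⊢
      have : g = (x ^ m)⁻¹ * c ^ z * x ^ m := by rw [hz]; group
      rw [this, mul_assoc, (hcx.zpow_left z).eq, ← mul_assoc, inv_mul_cancel, one_mul]
  have hcK : c ∈ (Subgroup.zpowers (x ^ m) ⊔ Subgroup.zpowers c : Subgroup H) :=
    (le_sup_right : Subgroup.zpowers c ≤ _) (Subgroup.mem_zpowers c)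
  have hxK : x ^ m ∈ (Subgroup.zpowers (x ^ m) ⊔ Subgroup.zpowers c : Subgroup H) :=
    (le_sup_left : Subgroup.zpowers (x ^ m) ≤ _) (Subgroup.mem_zpowers _)
  have hP : IsPGroup p (Subgroup.zpowers (y ^ n) ⊔
      (Subgroup.zpowers (x ^ m) ⊔ Subgroup.zpowers c) : Subgroup H) := by
    refine hY.to_sup_of_normal_right' hK ?_
    rw [Subgroup.zpowers_le]
    refine Subgroup.mem_normalizer_fintype (S := ((Subgroup.zpowers (x ^ m) ⊔
      Subgroup.zpowers c : Subgroup H) : Set H)) ?_
    intro g hg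
    have hle : (Subgroup.zpowers (x ^ m) ⊔ Subgroup.zpowers c : Subgroup H) ≤
        (Subgroup.zpowers (x ^ m) ⊔ Subgroup.zpowers c : Subgroup H).comap
          (MulAut.conj (y ^ n)).toMonoidHom := by
      refine sup_le ?_ ?_
      · rw [Subgroup.zpowers_le, Subgroup.mem_comap]
        have : (MulAut.conj (y ^ n)).toMonoidHom (x ^ m) = x ^ m * (c ^ (m * n))⁻¹ := by
          simp only [MulEquiv.toMonoidHom_eq_coe, MonoidHom.coe_coe, MulAut.conj_apply]
          have h2 : y ^ n * x ^ m = x ^ m * y ^ n * (c ^ (m * n))⁻¹ := by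
            rw [h1]; group
          rw [h2, mul_assoc (x ^ m), ((hcy.pow_left (m * n)).inv_left).symm.eq]
          group
        rw [this]
        exact mul_mem hxK (inv_mem (pow_mem hcK _))
      · rw [Subgroup.zpowers_le, Subgroup.mem_comap]
        have : (MulAut.conj (y ^ n)).toMonoidHom c = c := by
          simp only [MulEquiv.toMonoidHom_eq_coe, MonoidHom.coe_coe, MulAut.conj_apply]
          rw [← hcy.eq]; group
        rw [this]
        exact hcK
    exact hle hg
  have h2 := h _ hP (x ^ m) (Subgroup.mem_sup_right hxK) (y ^ n)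
    (Subgroup.mem_sup_left (Subgroup.mem_zpowers _))
  rw [h1] at h2
  have h3 : c ^ (m * n) = 1 := by simpa using h2
  have h4 : ¬ p ∣ m * n := fun hd => (hp.dvd_mul.1 hd).elim hm hn
  have h5 : orderOf c ∣ p := orderOf_dvd_of_pow_eq_one hc
  have h6 : orderOf c ∣ m * n := orderOf_dvd_of_pow_eq_one h3
  rcases (Nat.dvd_prime hp).1 h5 with h7 | h7
  · exact orderOf_eq_one_iff.1 h7
  · exact absurd (h7 ▸ h6) h4

end Pool.Agent.Helper45.AG
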